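import Pool.Agent.Y320.CM.Stm

/-!
# Project CM: two algebraic lemmas
-/

set_option autoImplicit false

namespace Pool.Agent.Y73.CM

open Pool.Agent.Y320.CM

theorem scale : S_SCALE := by
  classical
  intro Y _ β β' hs hs' hp hp' hid
  set r : Y → Y → ℝ := fun a b => β a b / β' a b with hr
  have hrp : ∀ a b, a ≠ b → 0 < r a b := fun a b h => div_pos (hp a b h) (hp' a b h)
  have hrs : ∀ a b, r a b = r b a := fun a b => by simp only [hr]; rw [hs, hs']
  have hrid : ∀ a b c e, D4 a b c e → r a b * r c e = r a c * r b e := by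
    intro a b c e h
    have h1 := hid a b c e h
    obtain ⟨hab, hac, hae, hbc, hbe, hce⟩ := h
    have p1 := hp a b hab
    have p2 := hp c e hce
    have p3 := hp a c hac
    have p4 := hp b e hbe
    have q1 := hp' a b hab
    have q2 := hp' c e hce
    have q3 := hp' a c hac
    have q4 := hp' b e hbe
    simp only [hr]
    rw [div_eq_div_iff (by positivity) (by positivity)] at h1
    rw [div_mul_div_comm, div_mul_div_comm, div_eq_div_iff (by positivity) (by positivity)]
    linear_combination h1
  set f : Y → Y → Y → ℝ := fun x y z => r x y * r x z / r y z with hf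
  have hfp : ∀ x y z, x ≠ y → x ≠ z → y ≠ z → 0 < f x y z := fun x y z h1 h2 h3 =>
    div_pos (mul_pos (hrp x y h1) (hrp x z h2)) (hrp y z h3)
  have hfs : ∀ x y z, f x y z = f x z y := fun x y z => by
    simp only [hf]
    rw [hrs y z, mul_comm]
  have key1 : ∀ x y z w, x ≠ y → x ≠ z → x ≠ w → y ≠ z → y ≠ w → z ≠ w →
      f x y z = f x y w := by
    intro x y z w hxy hxz hxw hyz hyw hzw
    have h1 := hrid x z w y ⟨hxz, hxw, hxy, hzw, hyz.symm, hyw.symm⟩
    have p1 := hrp y z hyz
    have p2 := hrp y w hyw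
    simp only [hf]
    rw [div_eq_div_iff p1.ne' p2.ne']
    rw [hrs w y, hrs z y] at h1
    linear_combination r x y * h1
  have key1' : ∀ x y z w, x ≠ y → x ≠ z → x ≠ w → y ≠ z → y ≠ w → f x y z = f x y w := by
    intro x y z w hxy hxz hxw hyz hyw
    by_cases h : z = w
    · rw [h]
    · exact key1 x y z w hxy hxz hxw hyz hyw h
  have key2 : ∀ x y z y' z', x ≠ y → x ≠ z → y ≠ z → x ≠ y' → x ≠ z' → y' ≠ z' →
      f x y z = f x y' z' := by
    intro x y z y' z' hxy hxz hyz hxy' hxz' hyz'
    obtain ⟨w, hw⟩ := Infinite.exists_notMem_finset ({x, y, z, y', z'} : Finset Y)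
    simp only [Finset.mem_insert, Finset.mem_singleton, not_or] at hw
    obtain ⟨wx, wy, wz, wy', wz'⟩ := hw
    rw [key1' x y z w hxy hxz (Ne.symm wx) hyz (Ne.symm wy), hfs x y w,
      key1' x w y y' (Ne.symm wx) hxy hxy' wy wy', hfs x w y',
      key1' x y' w z' hxy' (Ne.symm wx) hxz' (Ne.symm wy') hyz']
  have hch : ∀ x : Y, ∃ p : Y × Y, x ≠ p.1 ∧ x ≠ p.2 ∧ p.1 ≠ p.2 := by
    intro x
    obtain ⟨y, hy⟩ := Infinite.exists_notMem_finset ({x} : Finset Y)
    obtain ⟨z, hz⟩ := Infinite.exists_notMem_finset ({x, y} : Finset Y)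
    simp only [Finset.mem_insert, Finset.mem_singleton, not_or] at hy hz
    exact ⟨(y, z), Ne.symm hy, Ne.symm hz.1, Ne.symm hz.2⟩
  choose p hp1 hp2 hp3 using hch
  refine ⟨fun x => Real.sqrt (f x (p x).1 (p x).2),
    fun x => Real.sqrt_pos.2 (hfp _ _ _ (hp1 x) (hp2 x) (hp3 x)), ?_⟩
  intro a b hab
  obtain ⟨z, hz⟩ := Infinite.exists_notMem_finset ({a, b} : Finset Y)
  simp only [Finset.mem_insert, Finset.mem_singleton, not_or] at hz
  obtain ⟨hza, hzb⟩ := hz
  have h1 : f a (p a).1 (p a).2 = f a b z :=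
    key2 a _ _ b z (hp1 a) (hp2 a) (hp3 a) hab (Ne.symm hza) (Ne.symm hzb)
  have h2 : f b (p b).1 (p b).2 = f b a z :=
    key2 b _ _ a z (hp1 b) (hp2 b) (hp3 b) hab.symm (Ne.symm hzb) (Ne.symm hza)
  have h3 : Real.sqrt (f a b z) * Real.sqrt (f b a z) = r a b := by
    rw [← Real.sqrt_mul (hfp a b z hab (Ne.symm hza) (Ne.symm hzb)).le]
    have h4 : f a b z * f b a z = r a b ^ 2 := by
      simp only [hf]
      rw [hrs b a]
      have q1 := hrp b z (Ne.symm hzb)
      have q2 := hrp a z (Ne.symm hza)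
      field_simp
    rw [h4, Real.sqrt_sq (hrp a b hab).le]
  have h5 : β a b = r a b * β' a b := by
    simp only [hr]
    rw [div_mul_cancel₀ _ (hp' a b hab).ne']
  simp only
  rw [h1, h2, h3]
  exact h5

theorem B_add_left (v v' w : V) : B (v + v') w = B v w + B v' w := by
  unfold B
  simp only [Pi.add_apply]
  ring

theorem B_smul_left (c : ℝ) (v w : V) : B (c • v) w = c * B v w := by
  unfold B
  simp only [Pi.smul_apply, smul_eq_mul]
  ring

/-- the linear map `v ↦ B v w` -/
def Bl (w : V) : V →ₗ[ℝ] ℝ where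
  toFun v := B v w
  map_add' v v' := B_add_left v v' w
  map_smul' c v := B_smul_left c v w

theorem lin : S_LIN := by
  classical
  intro Y n
  set T : (Y →₀ ℝ) →ₗ[ℝ] V := Finsupp.linearCombination ℝ n with hT
  have hrange : LinearMap.range T = Submodule.span ℝ (Set.range n) :=
    Finsupp.range_linearCombination ℝ
  obtain ⟨π, hπ⟩ := LinearMap.exists_leftInverse_of_injective (LinearMap.range T).subtype
    (Submodule.ker_subtype _)
  obtain ⟨s, hs⟩ := LinearMap.exists_rightInverse_of_surjective T.rangeRestrict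
    (LinearMap.range_rangeRestrict T)
  refine ⟨s ∘ₗ π, ?_, ?_⟩
  · intro v hv
    rw [← hrange] at hv
    have h1 : π v = ⟨v, hv⟩ := by
      have := LinearMap.congr_fun hπ ⟨v, hv⟩
      exact this
    have h2 : T.rangeRestrict (s (π v)) = π v := LinearMap.congr_fun hs (π v)
    have h3 := congrArg Subtype.val h2
    rw [h1] at h3
    rw [LinearMap.comp_apply, h1]
    exact h3
  · intro n' hB hnd a
    set T' : (Y →₀ ℝ) →ₗ[ℝ] V := Finsupp.linearCombination ℝ n' with hT'
    have hna : n a ∈ LinearMap.range T := by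
      rw [hrange]
      exact Submodule.subset_span ⟨a, rfl⟩
    have h1 : π (n a) = ⟨n a, hna⟩ := by
      have := LinearMap.congr_fun hπ ⟨n a, hna⟩
      exact this
    have h2 : T.rangeRestrict (s (π (n a))) = π (n a) := LinearMap.congr_fun hs (π (n a))
    have h3 : T ((s ∘ₗ π) (n a)) = n a := by
      have h4 := congrArg Subtype.val h2
      rw [h1] at h4
      rw [LinearMap.comp_apply, h1]
      exact h4
    set u : Y →₀ ℝ := (s ∘ₗ π) (n a) - Finsupp.single a 1 with hu
    have hTu : T u = 0 := by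
      rw [hu, map_sub, h3, hT, Finsupp.linearCombination_single, one_smul, sub_self]
    have hval : ∀ (m : Y → V) (w : V),
        B (Finsupp.linearCombination ℝ m u) w = u.sum fun x c => c * B (m x) w := by
      intro m w
      have h5 : B (Finsupp.linearCombination ℝ m u) w =
          Bl w (Finsupp.linearCombination ℝ m u) := rfl
      rw [h5, Finsupp.linearCombination_apply, map_finsuppSum]
      refine Finsupp.sum_congr fun x _ => ?_
      rw [map_smul]
      rfl
    have h6 : T' u = 0 := by
      apply hnd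
      · rw [← Finsupp.range_linearCombination ℝ]
        exact ⟨u, rfl⟩
      · intro b
        rw [hT', hval]
        have h7 : (u.sum fun x c => c * B (n' x) (n' b)) = u.sum fun x c => c * B (n x) (n b) :=
          Finsupp.sum_congr fun x _ => by rw [hB]
        rw [h7, ← hval, ← hT, hTu]
        unfold B
        simp
    rw [hu, map_sub, sub_eq_zero, hT', Finsupp.linearCombination_single, one_smul] at h6
    exact h6

end Pool.Agent.Y73.CM
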